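import Pool.Agent.V11270.KC.Main
import Pool.Agent.V1161.VC.Prim
import Pool.Agent.V11270.HP.RealFK

/-!
# Dense sets of zeros of the zeta function: polynomial and linear patterns
-/

set_option autoImplicit false

namespace Pool.Agent.V1161.ZD

open Filter Topology MeasureTheory
open Pool.Agent.V11270.KC
open Pool.Agent.V1161.VC (overlap nice_ico int_ico real_poly_L2)
open H370 (mult)

/-- the distinct ordinates in `(0, T]` -/
noncomputable def ords (T : ℝ) : Finset ℝ := (Z0 T).image Complex.im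

/-- the total multiplicity of the zeros in `(0, T]` with ordinate `g` -/
noncomputable def om (T g : ℝ) : ℝ := ∑ s ∈ (Z0 T).filter (fun s => s.im = g), (mult riemannZeta s : ℝ)

lemma mem_ords {T g : ℝ} : g ∈ ords T ↔ (0 < g ∧ g ≤ T) ∧
    ∃ s : ℂ, riemannZeta s = 0 ∧ 0 < s.re ∧ s.re < 1 ∧ s.im = g := by
  classical
  unfold ords
  rw [Finset.mem_image]
  constructor
  · rintro ⟨s, hs, rfl⟩
    rw [mem_Z0] at hs
    exact ⟨⟨hs.2.2.1, hs.2.2.2.1⟩, s, hs.2.2.2.2, hs.1, hs.2.1, rfl⟩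
  · rintro ⟨⟨h1, h2⟩, s, h3, h4, h5, rfl⟩
    exact ⟨s, mem_Z0.2 ⟨h4, h5, h1, h2, h3⟩, rfl⟩

/-- the counts vanish far from the zeros -/
lemma V_supp (T : ℝ) {ρ : ℝ} (x : ℝ) (hx : x ∉ Set.Icc (-ρ) (-ρ + (T + 2 * ρ))) :
    V (Z0 T) ρ x = 0 := by
  unfold V
  refine Finset.sum_eq_zero fun s hs => ?_
  rw [Finset.mem_filter, mem_Z0] at hs
  exfalso
  apply hx
  obtain ⟨⟨g1, g2, g3, g4, g5⟩, g6⟩ := hs
  rw [abs_lt] at g6
  constructor <;> linarith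

/-- polynomial recurrence for functions bounded by the counts -/
theorem dense_main (d : ℕ) (K : ℝ) (hK : 0 < K) (ε : ℝ) (hε : 0 < ε) :
    ∃ (M : ℕ) (θ T0 : ℝ), 1 ≤ M ∧ 0 < θ ∧ 10 ≤ T0 ∧ ∀ T : ℝ, T0 ≤ T →
      ∀ F : ℝ → ℝ, Nice F → (∀ x, 0 ≤ F x) → (∀ x, F x ≤ V (Z0 T) (K / Real.log T) x) →
      ∀ β : Fin d → ℝ, (∀ r, |β r| ≤ θ * T) → ∃ m : ℕ, 1 ≤ m ∧ m ≤ M ∧
        (1 / T * ∫ x, F x) ^ 2 - ε ≤
          1 / T * ∫ x, F x * F (x + ∑ r, β r * (m : ℝ) ^ ((r : ℕ) + 1)) := by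
  classical
  obtain ⟨B, T1, hB, hT1, hmom⟩ := mom_kap 2 (by norm_num) K hK
  obtain ⟨e, he⟩ : ∃ e : ℝ, e = min 1 (ε / (4 * B)) := ⟨_, rfl⟩
  have he0 : 0 < e := by rw [he]; positivity
  have he1 : e ≤ 1 := by rw [he]; exact min_le_left _ _
  have heB : e * B ≤ ε / 4 := by
    have h1 : e ≤ ε / (4 * B) := by rw [he]; exact min_le_right _ _
    have h2 := mul_le_mul_of_nonneg_right h1 hB.le
    refine h2.trans (le_of_eq ?_)
    field_simp
  obtain ⟨M, c, hM, hc, hrec⟩ := real_poly_L2 d he0 he1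
  have h1 : ∀ᶠ T : ℝ in atTop, 2 * K ≤ Real.log T :=
    Real.tendsto_log_atTop.eventually_ge_atTop _
  obtain ⟨T3, hT3⟩ := eventually_atTop.1 h1
  refine ⟨M, c, max T1 (max T3 (2 * B / ε)), hM, hc, hT1.trans (le_max_left _ _),
    fun T hT F hFN hF0 hFV β hβ => ?_⟩
  have hTT1 : T1 ≤ T := (le_max_left _ _).trans hT
  have hTT3 : T3 ≤ T := ((le_max_left _ _).trans (le_max_right _ _)).trans hT
  have hTT4 : 2 * B / ε ≤ T := ((le_max_right _ _).trans (le_max_right _ _)).trans hT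
  have hTp : 0 < T := by linarith
  have hlog := hT3 T hTT3
  have hL0 : 0 < Real.log T := lt_of_lt_of_le (by positivity) hlog
  obtain ⟨ρ, hρ⟩ : ∃ ρ : ℝ, ρ = K / Real.log T := ⟨_, rfl⟩
  have hρ0 : 0 < ρ := by rw [hρ]; positivity
  have hρ1 : 2 * ρ ≤ 1 := by
    rw [hρ]
    have : 2 * (K / Real.log T) = 2 * K / Real.log T := by ring
    rw [this, div_le_one hL0]
    exact hlog
  have hmT := hmom T hTT1
  rw [← hρ] at hmT hFV
  have hFs : ∀ x, x ∉ Set.Icc (-ρ) (-ρ + (T + 2 * ρ)) → F x = 0 := fun x hx =>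
    le_antisymm ((hFV x).trans (V_supp T x hx).le) (hF0 x)
  have hL : 0 < T + 2 * ρ := by positivity
  have hF2 : ∫ x, F x ^ 2 ≤ B * T :=
    (integral_mono (hFN.pow (by norm_num)).integrable ((nice_V _ _).pow (by norm_num)).integrable
      fun x => pow_le_pow_left₀ (hF0 x) (hFV x) 2).trans hmT
  have hF20 : 0 ≤ ∫ x, F x ^ 2 := integral_nonneg fun x => sq_nonneg _
  obtain ⟨m, hm1, hm2, hm⟩ := hrec (-ρ) (T + 2 * ρ) hL F hFN.meas hF0 (by
      obtain ⟨B', hB'⟩ := hFN.bdd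
      exact ⟨B', fun x => (le_abs_self _).trans (hB' x)⟩) hFs β
    (fun r => (hβ r).trans (mul_le_mul_of_nonneg_left (by linarith) hc.le))
  refine ⟨m, hm1, hm2, ?_⟩
  have hcs := jensen (k := 2) (by norm_num) hFN hF0 hL hFs
  rw [show (2 - 1 : ℕ) = 1 from rfl, pow_one] at hcs
  obtain ⟨I, hI⟩ : ∃ I : ℝ, I = ∫ x, F x := ⟨_, rfl⟩
  obtain ⟨J, hJ⟩ : ∃ J : ℝ, J = ∫ x, F x ^ 2 := ⟨_, rfl⟩
  obtain ⟨Q, hQ⟩ : ∃ Q : ℝ, Q = ∫ x, F x * F (x + ∑ r, β r * (m : ℝ) ^ ((r : ℕ) + 1)) := ⟨_, rfl⟩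
  have hm' : (1 - e) * (I ^ 2 / (T + 2 * ρ)) - e * J ≤ Q := by
    rw [hI, hJ, hQ]
    exact hm
  rw [← hI, ← hJ] at hcs
  rw [← hJ] at hF2 hF20
  rw [← hI, ← hQ]
  have e1 : (1 / T * I) ^ 2 = 1 / T * (I ^ 2 / (T + 2 * ρ)) +
      1 / T * ((I ^ 2 / (T + 2 * ρ)) * (2 * ρ / T)) := by
    field_simp
  have hTi : 0 ≤ 1 / T := by positivity
  have hJT : 1 / T * J ≤ B := by
    rw [one_div, inv_mul_eq_div, div_le_iff₀ hTp]
    exact hF2
  have h3 : 1 / T * ((I ^ 2 / (T + 2 * ρ)) * (2 * ρ / T)) ≤ ε / 2 := by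
    have h4 : 2 * ρ / T ≤ 1 / T := div_le_div_of_nonneg_right hρ1 hTp.le
    have h5 : 1 / T * B ≤ ε / 2 := by
      rw [div_le_iff₀ hε] at hTT4
      rw [one_div, inv_mul_eq_div, div_le_iff₀ hTp]
      linarith
    calc 1 / T * ((I ^ 2 / (T + 2 * ρ)) * (2 * ρ / T)) ≤ 1 / T * (J * (1 / T)) := by
          apply mul_le_mul_of_nonneg_left _ hTi
          exact mul_le_mul hcs h4 (by positivity) hF20
      _ = 1 / T * (1 / T * J) := by ring
      _ ≤ 1 / T * B := mul_le_mul_of_nonneg_left hJT hTi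
      _ ≤ ε / 2 := h5
  have h6 := mul_le_mul_of_nonneg_left hm' hTi
  have h7 : 1 / T * ((1 - e) * (I ^ 2 / (T + 2 * ρ)) - e * J) =
      1 / T * (I ^ 2 / (T + 2 * ρ)) - e * (1 / T * (I ^ 2 / (T + 2 * ρ))) - e * (1 / T * J) := by
    ring
  rw [h7] at h6
  have h8 : 1 / T * (I ^ 2 / (T + 2 * ρ)) ≤ 1 / T * J := mul_le_mul_of_nonneg_left hcs hTi
  have h9 : e * (1 / T * J) ≤ ε / 4 := (mul_le_mul_of_nonneg_left hJT he0.le).trans heB
  have h10 : e * (1 / T * (I ^ 2 / (T + 2 * ρ))) ≤ ε / 4 :=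
    (mul_le_mul_of_nonneg_left h8 he0.le).trans h9
  rw [e1]
  linarith

/-- the weighted counts of the ordinates in half open windows -/
noncomputable def Fw (T ρ : ℝ) (w : ℝ → ℝ) (x : ℝ) : ℝ :=
  ∑ g ∈ ords T, w g * (Set.Ico (g + ρ - 2 * ρ) (g + ρ)).indicator (fun _ => (1 : ℝ)) x

lemma nice_Fw (T ρ : ℝ) (w : ℝ → ℝ) : Nice (Fw T ρ w) := by
  have hc : ∀ g : ℝ, Nice fun x =>
      w g * (Set.Ico (g + ρ - 2 * ρ) (g + ρ)).indicator (fun _ => (1 : ℝ)) x := by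
    intro g
    obtain ⟨B, hB⟩ := (nice_ico (g + ρ - 2 * ρ) (g + ρ)).bdd
    obtain ⟨a, b, hs⟩ := (nice_ico (g + ρ - 2 * ρ) (g + ρ)).supp
    refine ⟨(nice_ico _ _).meas.const_mul _, ⟨|w g| * B, fun x => ?_⟩, a, b, fun x hx => ?_⟩
    · rw [abs_mul]
      exact mul_le_mul_of_nonneg_left (hB x) (abs_nonneg _)
    · rw [hs x hx, mul_zero]
  exact Nice.sum (ords T) _ fun g _ => hc g

lemma Fw_nonneg (T ρ : ℝ) (w : ℝ → ℝ) (hw : ∀ g, 0 ≤ w g) (x : ℝ) : 0 ≤ Fw T ρ w x :=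
  Finset.sum_nonneg fun g _ => mul_nonneg (hw g) (Set.indicator_nonneg (fun _ _ => zero_le_one) _)

lemma Fw_le (T ρ : ℝ) (hρ : 0 < ρ) (w : ℝ → ℝ) (hw : ∀ g, w g ≤ om T g) (x : ℝ) :
    Fw T ρ w x ≤ V (Z0 T) (2 * ρ) x := by
  classical
  unfold Fw V
  have h1 : ∑ g ∈ ords T, w g * (Set.Ico (g + ρ - 2 * ρ) (g + ρ)).indicator (fun _ => (1 : ℝ)) x ≤
      ∑ g ∈ ords T, ∑ s ∈ ((Z0 T).filter (fun s => |s.im - x| < 2 * ρ)).filter (fun s => s.im = g),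
        (mult riemannZeta s : ℝ) := by
    refine Finset.sum_le_sum fun g _ => ?_
    have h0 : 0 ≤ ∑ s ∈ ((Z0 T).filter (fun s => |s.im - x| < 2 * ρ)).filter (fun s => s.im = g),
        (mult riemannZeta s : ℝ) := Finset.sum_nonneg fun s _ => Nat.cast_nonneg _
    by_cases hx : x ∈ Set.Ico (g + ρ - 2 * ρ) (g + ρ)
    · rw [Set.indicator_of_mem hx, mul_one]
      refine (hw g).trans (le_of_eq ?_)
      unfold om
      refine Finset.sum_congr ?_ fun s _ => rfl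
      ext s
      rw [Finset.mem_filter, Finset.mem_filter, Finset.mem_filter]
      constructor
      · rintro ⟨a1, a2⟩
        refine ⟨⟨a1, ?_⟩, a2⟩
        rw [a2, abs_lt]
        constructor <;> linarith [hx.1, hx.2]
      · rintro ⟨⟨a1, -⟩, a2⟩
        exact ⟨a1, a2⟩
    · rw [Set.indicator_of_notMem hx, mul_zero]
      exact h0
  refine h1.trans (le_of_eq ?_)
  apply Finset.sum_fiberwise_of_maps_to
  intro s hs
  rw [Finset.mem_filter] at hs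
  unfold ords
  exact Finset.mem_image_of_mem _ hs.1

lemma int_Fw (T : ℝ) {ρ : ℝ} (hρ : 0 ≤ ρ) (w : ℝ → ℝ) :
    ∫ x, Fw T ρ w x = 2 * ρ * ∑ g ∈ ords T, w g := by
  unfold Fw
  rw [integral_finsetSum _ fun g _ => (nice_ico _ _).integrable.const_mul _, Finset.mul_sum]
  refine Finset.sum_congr rfl fun g _ => ?_
  rw [integral_const_mul, int_ico, max_eq_right (by linarith)]
  ring

lemma corr_Fw (T ρ s : ℝ) (w : ℝ → ℝ) : ∫ x, Fw T ρ w x * Fw T ρ w (x + s) =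
    ∑ g ∈ ords T, ∑ g' ∈ ords T, w g * w g' * max 0 (2 * ρ - |g' - g - s|) := by
  have e : ∀ x, Fw T ρ w x * Fw T ρ w (x + s) = ∑ g ∈ ords T, ∑ g' ∈ ords T, w g * w g' *
      ((Set.Ico (g + ρ - 2 * ρ) (g + ρ)).indicator (fun _ => (1 : ℝ)) x *
        (Set.Ico (g' + ρ - 2 * ρ) (g' + ρ)).indicator (fun _ => (1 : ℝ)) (x + s)) := by
    intro x
    unfold Fw
    rw [Finset.sum_mul_sum]
    refine Finset.sum_congr rfl fun g _ => Finset.sum_congr rfl fun g' _ => ?_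
    ring
  simp_rw [e]
  have hN : ∀ g g' : ℝ, Integrable fun x => w g * w g' *
      ((Set.Ico (g + ρ - 2 * ρ) (g + ρ)).indicator (fun _ => (1 : ℝ)) x *
        (Set.Ico (g' + ρ - 2 * ρ) (g' + ρ)).indicator (fun _ => (1 : ℝ)) (x + s)) := fun g g' =>
    ((nice_ico _ _).mul ((nice_ico _ _).comp s)).integrable.const_mul _
  rw [integral_finsetSum _ fun g _ => integrable_finsetSum _ fun g' _ => hN g g']
  refine Finset.sum_congr rfl fun g _ => ?_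
  rw [integral_finsetSum _ fun g' _ => hN g g']
  refine Finset.sum_congr rfl fun g' _ => ?_
  rw [integral_const_mul, overlap]
  congr 3
  congr 1
  ring

/-- **pairs at polynomial distances, weighted sets of ordinates** -/
theorem pairs_main (d : ℕ) (κ : ℝ) (hκ : 0 < κ) (ε : ℝ) (hε : 0 < ε) :
    ∃ (M : ℕ) (θ T0 : ℝ), 1 ≤ M ∧ 0 < θ ∧ 10 ≤ T0 ∧ ∀ T : ℝ, T0 ≤ T →
      ∀ w : ℝ → ℝ, (∀ g, 0 ≤ w g ∧ w g ≤ om T g) →
      ∀ β : Fin d → ℝ, (∀ r, |β r| ≤ θ * T) → ∃ m : ℕ, 1 ≤ m ∧ m ≤ M ∧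
        κ * (∑ g ∈ ords T, w g) ^ 2 / (T / (2 * Real.pi) * Real.log T) -
            ε * (T / (2 * Real.pi) * Real.log T) ≤
          ∑ g ∈ ords T, ∑ g' ∈ ords T, w g * w g' *
            max 0 (1 - |g' - g - ∑ r, β r * (m : ℝ) ^ ((r : ℕ) + 1)| / (κ * (2 * Real.pi / Real.log T))) := by
  classical
  have hpi := Real.pi_pos
  obtain ⟨M, θ, T0, hM, hθ, hT0, h⟩ := dense_main d (2 * (Real.pi * κ)) (by positivity) (ε * κ)
    (by positivity)
  refine ⟨M, θ, T0, hM, hθ, hT0, fun T hT w hw β hβ => ?_⟩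
  have hTp : 0 < T := by linarith
  have hL0 : 0 < Real.log T := Real.log_pos (by linarith)
  obtain ⟨ρ, hρ⟩ : ∃ ρ : ℝ, ρ = Real.pi * κ / Real.log T := ⟨_, rfl⟩
  have hρ0 : 0 < ρ := by rw [hρ]; positivity
  have h2ρ : 2 * ρ = κ * (2 * Real.pi / Real.log T) := by rw [hρ]; ring
  obtain ⟨m, hm1, hm2, hm⟩ := h T hT (Fw T ρ w) (nice_Fw T ρ w) (Fw_nonneg T ρ w fun g => (hw g).1)
    (fun x => by
      have h1 := Fw_le T ρ hρ0 w (fun g => (hw g).2) x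
      have e1 : 2 * ρ = 2 * (Real.pi * κ) / Real.log T := by rw [hρ]; ring
      rw [← e1]
      exact h1) β hβ
  refine ⟨m, hm1, hm2, ?_⟩
  obtain ⟨s, hs⟩ : ∃ s : ℝ, s = ∑ r, β r * (m : ℝ) ^ ((r : ℕ) + 1) := ⟨_, rfl⟩
  rw [← hs] at hm ⊢
  rw [int_Fw T hρ0.le, corr_Fw] at hm
  rw [← h2ρ]
  obtain ⟨n, hn⟩ : ∃ n : ℝ, n = ∑ g ∈ ords T, w g := ⟨_, rfl⟩
  rw [← hn] at hm ⊢
  obtain ⟨S, hS⟩ : ∃ S : ℝ, S = ∑ g ∈ ords T, ∑ g' ∈ ords T, w g * w g' *
    max 0 (1 - |g' - g - s| / (2 * ρ)) := ⟨_, rfl⟩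
  have hSh : ∑ g ∈ ords T, ∑ g' ∈ ords T, w g * w g' * max 0 (2 * ρ - |g' - g - s|) =
      2 * ρ * S := by
    rw [hS, Finset.mul_sum]
    refine Finset.sum_congr rfl fun g _ => ?_
    rw [Finset.mul_sum]
    refine Finset.sum_congr rfl fun g' _ => ?_
    have h1 : max 0 (2 * ρ - |g' - g - s|) = 2 * ρ * max 0 (1 - |g' - g - s| / (2 * ρ)) := by
      rw [mul_max_of_nonneg _ _ (by positivity), mul_zero]
      congr 1
      field_simp
    rw [h1]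
    ring
  rw [hSh] at hm
  rw [← hS]
  have h3 := mul_le_mul_of_nonneg_left hm (show 0 ≤ T / (2 * ρ) by positivity)
  have e2 : T / (2 * ρ) * (1 / T * (2 * ρ * S)) = S := by
    field_simp
  have e3 : T / (2 * ρ) * ((1 / T * (2 * ρ * n)) ^ 2 - ε * κ) =
      κ * n ^ 2 / (T / (2 * Real.pi) * Real.log T) - ε * (T / (2 * Real.pi) * Real.log T) := by
    rw [hρ]
    field_simp
  rw [e2, e3] at h3
  exact h3

/-- the measure of the windows around a set of ordinates -/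
lemma meas_windows (κ : ℝ) (hκ : 0 < κ) : ∃ B T0 : ℝ, 0 < B ∧ 10 ≤ T0 ∧ ∀ T : ℝ, T0 ≤ T →
    ∀ S : Finset ℝ, S ⊆ ords T → ∀ δ : ℝ, 0 ≤ δ → δ * (T / (2 * Real.pi) * Real.log T) ≤ S.card →
      ENNReal.ofReal (δ ^ 2 / B * T) ≤ volume (⋃ g ∈ S,
        Set.Ico (g - Real.pi * κ / Real.log T) (g + Real.pi * κ / Real.log T)) := by
  classical
  have hpi := Real.pi_pos
  obtain ⟨B, T1, hB, hT1, hmom⟩ := mom_kap 2 (by norm_num) (2 * (Real.pi * κ)) (by positivity)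
  refine ⟨B / κ ^ 2, T1, by positivity, hT1, fun T hT S hS δ hδ hcard => ?_⟩
  have hTp : 0 < T := by linarith
  have hL0 : 0 < Real.log T := Real.log_pos (by linarith)
  obtain ⟨ρ, hρ⟩ : ∃ ρ : ℝ, ρ = Real.pi * κ / Real.log T := ⟨_, rfl⟩
  have hρ0 : 0 < ρ := by rw [hρ]; positivity
  rw [← hρ]
  have hmT := hmom T hT
  have e1 : 2 * (Real.pi * κ) / Real.log T = 2 * ρ := by rw [hρ]; ring
  rw [e1] at hmT
  obtain ⟨w, hw⟩ : ∃ w : ℝ → ℝ, w = fun g => if g ∈ S then 1 else 0 := ⟨_, rfl⟩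
  have hw0 : ∀ g, 0 ≤ w g := fun g => by
    rw [hw]
    simp only
    split_ifs <;> norm_num
  have hw1 : ∀ g, w g ≤ om T g := by
    intro g
    rw [hw]
    simp only
    have h0 : 0 ≤ om T g := Finset.sum_nonneg fun s _ => Nat.cast_nonneg _
    split_ifs with h1
    · obtain ⟨⟨a1, a2⟩, s, a3, a4, a5, a6⟩ := mem_ords.1 (hS h1)
      have h2 : s ∈ (Z0 T).filter (fun s => s.im = g) := by
        rw [Finset.mem_filter, mem_Z0]
        exact ⟨⟨a4, a5, by rw [a6]; exact a1, by rw [a6]; exact a2, a3⟩, a6⟩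
      have h3 : (1 : ℝ) ≤ mult riemannZeta s := by
        have := H370.Loc.mult_pos' H370.good_zeta (s := s) (by rw [a6]; exact a1) a3
        exact_mod_cast this
      refine h3.trans ?_
      exact Finset.single_le_sum (f := fun s => (mult riemannZeta s : ℝ))
        (fun s _ => Nat.cast_nonneg _) h2
    · exact h0
  obtain ⟨A, hA⟩ : ∃ A : Set ℝ, A = ⋃ g ∈ S, Set.Ico (g - ρ) (g + ρ) := ⟨_, rfl⟩
  rw [← hA]
  have hAm : MeasurableSet A := by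
    rw [hA]
    exact Finset.measurableSet_biUnion _ fun g _ => measurableSet_Ico
  have hAfin : volume A ≠ ⊤ := by
    rw [hA]
    refine ((measure_biUnion_finset_le _ _).trans_lt ?_).ne
    exact ENNReal.sum_lt_top.2 fun g _ => by rw [Real.volume_Ico]; exact ENNReal.ofReal_lt_top
  have hsum : ∑ g ∈ ords T, w g = S.card := by
    rw [hw, Finset.sum_ite_mem, Finset.inter_eq_right.2 hS, Finset.sum_const, nsmul_eq_mul, mul_one]
  have hFI : ∫ x, Fw T ρ w x = 2 * ρ * S.card := by rw [int_Fw T hρ0.le, hsum]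
  have hF2 : ∫ x, Fw T ρ w x ^ 2 ≤ B * T :=
    (integral_mono ((nice_Fw T ρ w).pow (by norm_num)).integrable
      ((nice_V _ _).pow (by norm_num)).integrable
      fun x => pow_le_pow_left₀ (Fw_nonneg T ρ w hw0 x) (Fw_le T ρ hρ0 w hw1 x) 2).trans hmT
  -- the function vanishes outside `A`
  have hsup : ∀ x, x ∉ A → Fw T ρ w x = 0 := by
    intro x hx
    unfold Fw
    refine Finset.sum_eq_zero fun g _ => ?_
    by_cases hg : g ∈ S
    · have h2 : x ∉ Set.Ico (g + ρ - 2 * ρ) (g + ρ) := by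
        intro h3
        apply hx
        rw [hA, Set.mem_iUnion₂]
        exact ⟨g, hg, by linarith [h3.1], h3.2⟩
      rw [Set.indicator_of_notMem h2, mul_zero]
    · have h2 : w g = 0 := by rw [hw]; simp only; rw [if_neg hg]
      rw [h2, zero_mul]
  obtain ⟨v, hv⟩ : ∃ v : ℝ, v = (volume A).toReal := ⟨_, rfl⟩
  obtain ⟨I, hI⟩ : ∃ I : ℝ, I = 2 * ρ * S.card := ⟨_, rfl⟩
  have hkey : ∀ u : ℝ, 0 < u → 2 * u * I - u ^ 2 * (B * T) ≤ v := by
    intro u hu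
    have hpt : ∀ x, 2 * u * Fw T ρ w x - u ^ 2 * Fw T ρ w x ^ 2 ≤ A.indicator (fun _ => (1 : ℝ)) x := by
      intro x
      by_cases hx : x ∈ A
      · rw [Set.indicator_of_mem hx]
        nlinarith [sq_nonneg (u * Fw T ρ w x - 1)]
      · rw [Set.indicator_of_notMem hx, hsup x hx]
        simp
    have hAi : Integrable (A.indicator (fun _ => (1 : ℝ))) :=
      (integrable_indicator_iff hAm).2 (integrableOn_const hAfin)
    have h2 := integral_mono (((nice_Fw T ρ w).integrable.const_mul (2 * u)).sub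
      (((nice_Fw T ρ w).pow (by norm_num : 1 ≤ 2)).integrable.const_mul (u ^ 2))) hAi hpt
    have h3 : ∫ x, (2 * u * Fw T ρ w x - u ^ 2 * Fw T ρ w x ^ 2) =
        2 * u * I - u ^ 2 * ∫ x, Fw T ρ w x ^ 2 := by
      rw [integral_sub ((nice_Fw T ρ w).integrable.const_mul (2 * u))
        (((nice_Fw T ρ w).pow (by norm_num : 1 ≤ 2)).integrable.const_mul (u ^ 2)), integral_const_mul,
        integral_const_mul, hFI, hI]
    have h4 : ∫ x, A.indicator (fun _ => (1 : ℝ)) x = v := by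
      rw [integral_indicator_const _ hAm, measureReal_def, smul_eq_mul, mul_one, hv]
    simp only [Pi.sub_apply] at h2
    rw [h3, h4] at h2
    have h5 := mul_le_mul_of_nonneg_left hF2 (sq_nonneg u)
    linarith
  have hv0 : 0 ≤ v := by rw [hv]; exact ENNReal.toReal_nonneg
  have hIlow : δ * κ * T ≤ I := by
    rw [hI, hρ]
    have h2 := mul_le_mul_of_nonneg_left hcard (show 0 ≤ 2 * (Real.pi * κ / Real.log T) by positivity)
    refine le_trans (le_of_eq ?_) h2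
    field_simp
  have hfin : δ ^ 2 / (B / κ ^ 2) * T ≤ v := by
    rcases hδ.eq_or_lt with h0 | hδ0
    · rw [← h0]
      simpa using hv0
    have hu : 0 < δ * κ / B := by positivity
    have h2 := hkey (δ * κ / B) hu
    have h3 : 2 * (δ * κ / B) * (δ * κ * T) - (δ * κ / B) ^ 2 * (B * T) = δ ^ 2 / (B / κ ^ 2) * T := by
      field_simp
      ring
    have h4 : 2 * (δ * κ / B) * (δ * κ * T) ≤ 2 * (δ * κ / B) * I :=
      mul_le_mul_of_nonneg_left hIlow (by positivity)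
    linarith
  rw [ENNReal.ofReal_le_iff_le_toReal hAfin, ← hv]
  exact hfin

/-- **the IP Szemeredi theorem in dense sets of ordinates** -/
theorem ip_main (k : ℕ) (δ κ : ℝ) (hδ : 0 < δ) (hκ : 0 < κ) : ∃ (r : ℕ) (η T0 : ℝ), 0 < η ∧
    10 ≤ T0 ∧ ∀ T : ℝ, T0 ≤ T → ∀ S : Finset ℝ, S ⊆ ords T →
      δ * (T / (2 * Real.pi) * Real.log T) ≤ S.card →
      ∀ g : Fin r → Fin k → ℝ, (∀ j, ∑ i, |g i j| ≤ T) →
      ∃ J : Finset (Fin r), J.Nonempty ∧ η * (T / (2 * Real.pi) * Real.log T) ≤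
        ((S.filter fun t => ∀ j, ∃ u ∈ S,
          |u - (t + ∑ i ∈ J, g i j)| < κ * (2 * Real.pi / Real.log T)).card : ℝ) := by
  classical
  have hpi := Real.pi_pos
  obtain ⟨B, T1, hB, hT1, hmeas⟩ := meas_windows κ hκ
  obtain ⟨r, η, hη, hline⟩ := Pool.Agent.V11270.HP.real_line k (δ ^ 2 / B / 2) (by positivity)
  have h1 : ∀ᶠ T : ℝ in atTop, Real.pi * κ ≤ Real.log T :=
    Real.tendsto_log_atTop.eventually_ge_atTop _
  obtain ⟨T3, hT3⟩ := eventually_atTop.1 h1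
  refine ⟨r, η / κ, max T1 T3, by positivity, hT1.trans (le_max_left _ _), fun T hT S hS hcard g hg => ?_⟩
  have hTT1 : T1 ≤ T := (le_max_left _ _).trans hT
  have hTT3 : T3 ≤ T := (le_max_right _ _).trans hT
  have hTp : 0 < T := by linarith
  have hL0 : 0 < Real.log T := Real.log_pos (by linarith)
  have hlog := hT3 T hTT3
  have hv := hmeas T hTT1 S hS δ hδ.le hcard
  obtain ⟨ρ, hρ⟩ : ∃ ρ : ℝ, ρ = Real.pi * κ / Real.log T := ⟨_, rfl⟩
  have hρ0 : 0 < ρ := by rw [hρ]; positivity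
  have hρ1 : ρ ≤ 1 := by rw [hρ, div_le_one hL0]; exact hlog
  rw [← hρ] at hv
  obtain ⟨A, hA⟩ : ∃ A : Set ℝ, A = ⋃ g ∈ S, Set.Ico (g - ρ) (g + ρ) := ⟨_, rfl⟩
  rw [← hA] at hv
  have hAm : MeasurableSet A := by
    rw [hA]
    exact Finset.measurableSet_biUnion _ fun g _ => measurableSet_Ico
  have hAs : A ⊆ Set.Icc (-1 : ℝ) (-1 + (T + 2)) := by
    intro x hx
    rw [hA, Set.mem_iUnion₂] at hx
    obtain ⟨t, ht, hx1⟩ := hx
    obtain ⟨⟨a1, a2⟩, -⟩ := mem_ords.1 (hS ht)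
    constructor
    · linarith [hx1.1]
    · linarith [hx1.2]
  have hAv : ENNReal.ofReal (δ ^ 2 / B / 2 * (T + 2)) ≤ volume A := by
    refine le_trans (ENNReal.ofReal_le_ofReal ?_) hv
    have h2 : T + 2 ≤ 2 * T := by linarith
    have h3 := mul_le_mul_of_nonneg_left h2 (show 0 ≤ δ ^ 2 / B / 2 by positivity)
    linarith
  obtain ⟨J, hJ, hfin⟩ := hline (T + 2) (by linarith) (-1) A hAm hAs hAv g
    (fun j => (hg j).trans (by linarith))
  refine ⟨J, hJ, ?_⟩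
  obtain ⟨P, hP⟩ : ∃ P : Finset ℝ, P = S.filter fun t => ∀ j, ∃ u ∈ S,
    |u - (t + ∑ i ∈ J, g i j)| < κ * (2 * Real.pi / Real.log T) := ⟨_, rfl⟩
  rw [← hP]
  have h2ρ : κ * (2 * Real.pi / Real.log T) = 2 * ρ := by rw [hρ]; ring
  have hsub : {x | x ∈ A ∧ ∀ j, x + ∑ i ∈ J, g i j ∈ A} ⊆ ⋃ t ∈ P, Set.Ico (t - ρ) (t + ρ) := by
    rintro x ⟨hx, hxs⟩
    rw [hA, Set.mem_iUnion₂] at hx
    obtain ⟨t, ht, hx1⟩ := hx
    rw [Set.mem_iUnion₂]
    refine ⟨t, ?_, hx1⟩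
    rw [hP, Finset.mem_filter]
    refine ⟨ht, fun j => ?_⟩
    have h3 := hxs j
    rw [hA, Set.mem_iUnion₂] at h3
    obtain ⟨u, hu, hx2⟩ := h3
    refine ⟨u, hu, ?_⟩
    rw [h2ρ, abs_lt]
    constructor <;> linarith [hx1.1, hx1.2, hx2.1, hx2.2]
  have hIco : ∀ t : ℝ, volume (Set.Ico (t - ρ) (t + ρ)) = ENNReal.ofReal (2 * ρ) := by
    intro t
    rw [Real.volume_Ico]
    congr 1
    ring
  have h4 : ENNReal.ofReal (η * (T + 2)) ≤ ENNReal.ofReal (P.card * (2 * ρ)) := by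
    refine hfin.trans ((measure_mono hsub).trans ((measure_biUnion_finset_le _ _).trans ?_))
    simp_rw [hIco]
    rw [Finset.sum_const, nsmul_eq_mul, ENNReal.ofReal_mul (Nat.cast_nonneg _),
      ENNReal.ofReal_natCast]
  rw [ENNReal.ofReal_le_ofReal_iff (by positivity)] at h4
  have h5 : η * T ≤ P.card * (2 * ρ) := by
    have : η * T ≤ η * (T + 2) := mul_le_mul_of_nonneg_left (by linarith) hη.le
    linarith
  have h6 := mul_le_mul_of_nonneg_right h5 (show 0 ≤ 1 / (2 * ρ) by positivity)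
  have e5 : η * T * (1 / (2 * ρ)) = η / κ * (T / (2 * Real.pi) * Real.log T) := by
    rw [hρ]
    field_simp
  have e6 : (P.card : ℝ) * (2 * ρ) * (1 / (2 * ρ)) = P.card := by
    field_simp
  rw [e5, e6] at h6
  exact h6

end Pool.Agent.V1161.ZD
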